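import Mathlib
import Pool.Agent.Helper61.FR.St.P1

/-!
# MR-R1: invariance under `x ↦ 3 ^ n x`

Proof.  Copy `preserving_two_pow` and the `inv_eq` part of `profile_pr`
(`Pool/Agent/Helper61/FR/St/P1.lean`) with `3` in place of `2` (`h.three` in place of `h.two`).
-/

set_option autoImplicit false

open MeasureTheory Finset

namespace Pool.Agent.Helper88.MR

open Pool.Agent.Helper61.FR

theorem preserving_three_pow {μ : Measure ℝ} (h : Inv23 μ) (n : ℕ) :
    MeasurePreserving (fun x : ℝ => Int.fract (3 ^ n * x)) μ μ := by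
  have := preserving_mul_pow h 3 (by simpa using h.three) n
  simpa using this

theorem pr_inv3 {μ : Measure ℝ} (h : Inv23 μ) (D n a : ℕ) (hD : 1 ≤ D) (ha : a < D) :
    pr μ D a = ∑ j ∈ range (3 ^ n), pr μ (D * 3 ^ n) (a + D * j) := by
  haveI := h.prob
  have hdisj : ∀ D : ℕ, ∀ a b : ℕ, a ≠ b →
      Disjoint {x : ℝ | ⌊(D : ℝ) * x⌋₊ = a} {x : ℝ | ⌊(D : ℝ) * x⌋₊ = b} := by
    intro D a b hab
    rw [Set.disjoint_left]
    intro x hx hx'
    exact hab (hx.symm.trans hx')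
  have hB : 1 ≤ 3 ^ n := Nat.one_le_pow _ _ (by norm_num)
  unfold pr
  have h1 := (preserving_three_pow h n).measureReal_preimage
    (measurableSet_floor_eq D a).nullMeasurableSet
  rw [← h1]
  have h2 : ((fun x : ℝ => Int.fract ((3 : ℝ) ^ n * x)) ⁻¹' {x : ℝ | ⌊(D : ℝ) * x⌋₊ = a})
      =ᵐ[μ] ⋃ j ∈ range (3 ^ n), {x : ℝ | ⌊((D * 3 ^ n : ℕ) : ℝ) * x⌋₊ = a + D * j} := by
    filter_upwards [h.supp] with x hx
    have hy : (0 : ℝ) ≤ (3 : ℝ) ^ n * x := mul_nonneg (by positivity) hx.1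
    obtain ⟨h3, h4⟩ := floor_mul_fract D hD _ hy
    have h5 : ((D * 3 ^ n : ℕ) : ℝ) * x = (D : ℝ) * ((3 : ℝ) ^ n * x) := by
      push_cast
      ring
    have h6 : ⌊(3 : ℝ) ^ n * x⌋₊ < 3 ^ n := by
      rw [Nat.floor_lt hy]
      push_cast
      have : (0 : ℝ) < 3 ^ n := by positivity
      nlinarith [hx.2]
    have h7 : (x ∈ ((fun x : ℝ => Int.fract ((3 : ℝ) ^ n * x)) ⁻¹'
        {x : ℝ | ⌊(D : ℝ) * x⌋₊ = a})) ↔
        x ∈ ⋃ j ∈ range (3 ^ n), {x : ℝ | ⌊((D * 3 ^ n : ℕ) : ℝ) * x⌋₊ = a + D * j} := by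
      simp only [Set.mem_preimage, Set.mem_iUnion, Set.mem_setOf_eq, Finset.mem_range,
        exists_prop]
      rw [h3, h5]
      constructor
      · intro h8
        refine ⟨⌊(3 : ℝ) ^ n * x⌋₊, h6, ?_⟩
        rw [← h4, ← h8]
        exact (Nat.mod_add_div _ _).symm
      · rintro ⟨j, hj, h8⟩
        rw [h8, Nat.add_mul_mod_self_left, Nat.mod_eq_of_lt ha]
    exact propext h7
  rw [measureReal_congr h2, measureReal_biUnion_finset]
  · intro i _ j _ hij
    refine hdisj (D * 3 ^ n) _ _ (fun h => hij ?_)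
    have : D * i = D * j := by omega
    exact Nat.eq_of_mul_eq_mul_left (by omega) this
  · intro i _
    exact measurableSet_floor_eq _ _

end Pool.Agent.Helper88.MR
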