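import Mathlib
import Pool.Agent.Helper61.FR.St.P2

/-!
# MR-R2: the Bessel inequality on a fibre of `x ↦ 3 ^ n x`

Proof.  Adapt `bessel` (`Pool/Agent/Helper61/FR/St/P2.lean`; `bessel_aux` there can be used as it is)
with the roles of `2` and `3` exchanged.  Put `N = 3 ^ n`.  If `N ≤ m` the left side is at most
`N ≤ m`.  Otherwise `m = 3 ^ v m₁` with `3 ∤ m₁` and `v < n`; expanding the square and summing over
`j < N` first, the left side is at most `(N / N ^ 2)` times the number of pairs `(i, i')`, `i, i' < N`,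
with `3 ^ n ∣ m (2 ^ i - 2 ^ i')`, i.e. `3 ^ (n - v) ∣ 2 ^ i - 2 ^ i'`, and this implies
`i ≡ i' mod 3 ^ (n - v - 1)` (`3 ^ L ∣ 2 ^ t - 1` implies `3 ^ (L - 1) ∣ t`: `t` is even,
`2 ^ t - 1 = 4 ^ (t / 2) - 1` and `v₃ (4 ^ u - 1) = 1 + v₃ u`, `padicValNat.pow_sub_pow` or
`Int.emultiplicity_pow_sub_pow`).  For each `i` there are `3 ^ (v + 1) ≤ 3 m` such `i'`.
-/

set_option autoImplicit false

open MeasureTheory Finset

namespace Pool.Agent.Helper88.MR

open Pool.Agent.Helper61.FR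

theorem three_pow_dvd_two_pow_sub_one (L t : ℕ) (h : 3 ^ L ∣ 2 ^ t - 1) : 3 ^ (L - 1) ∣ t := by
  rcases Nat.eq_zero_or_pos t with rfl | ht
  · simp
  rcases Nat.eq_zero_or_pos L with rfl | hL
  · simp
  have h3 : 3 ∣ 2 ^ t - 1 := (dvd_pow_self 3 hL.ne').trans h
  have heven : Even t := by
    by_contra ho
    rw [Nat.not_even_iff_odd] at ho
    obtain ⟨j, rfl⟩ := ho
    have h1 : 2 ^ (2 * j + 1) % 3 = 2 := by
      rw [pow_succ, pow_mul, Nat.mul_mod, Nat.pow_mod]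
      norm_num
    have hpos : 0 < 2 ^ (2 * j + 1) := by positivity
    generalize 2 ^ (2 * j + 1) = s at h3 h1 hpos
    omega
  obtain ⟨u, hu⟩ := heven
  have hu0 : u ≠ 0 := by omega
  have hpow : 2 ^ t - 1 = 4 ^ u - 1 ^ u := by
    rw [one_pow, hu, ← two_mul, pow_mul]
    norm_num
  have hfact : Fact (Nat.Prime 3) := ⟨Nat.prime_three⟩
  have hv := padicValNat.pow_sub_pow (p := 3) (by decide) (x := 4) (y := 1) (by norm_num)
    (by norm_num) (by norm_num) hu0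
  have h31 : padicValNat 3 (4 - 1) = 1 := by
    have : (4 - 1 : ℕ) = 3 ^ 1 := by norm_num
    rw [this, padicValNat.prime_pow]
  rw [h31, ← hpow] at hv
  have hne : 2 ^ t - 1 ≠ 0 := by
    have : 2 ^ 1 ≤ 2 ^ t := Nat.pow_le_pow_right (by norm_num) ht
    omega
  rw [padicValNat_dvd_iff_le hne] at h
  have hu1 : 3 ^ (L - 1) ∣ u := by
    rw [padicValNat_dvd_iff_le hu0]
    omega
  rw [hu]
  exact dvd_add hu1 hu1

private theorem R2_card_class_le (q a c : ℕ) (haq : a ≤ q) (s : Finset ℕ)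
    (hs : ∀ k ∈ s, k < 3 ^ q) (hc : ∀ k ∈ s, k ≡ c [MOD 3 ^ a]) : s.card ≤ 3 ^ (q - a) := by
  rw [← Finset.card_range (3 ^ (q - a))]
  apply Finset.card_le_card_of_injOn (fun k => k / 3 ^ a)
  · intro k hk
    have hk' := hs k (by simpa using hk)
    simp only [coe_range, Set.mem_Iio]
    rw [Nat.div_lt_iff_lt_mul (by positivity), ← pow_add, Nat.sub_add_cancel haq]
    exact hk'
  · intro k hk k' hk' h
    have h1 := hc k (by simpa using hk)
    have h2 := hc k' (by simpa using hk')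
    have h3 : k % 3 ^ a = k' % 3 ^ a := h1.trans h2.symm
    simp only at h
    rw [← Nat.div_add_mod k (3 ^ a), ← Nat.div_add_mod k' (3 ^ a), h, h3]

private theorem R2_two_modEq (L i t : ℕ) (h : (3 ^ L : ℤ) ∣ 2 ^ i - 2 ^ (i + t)) :
    3 ^ (L - 1) ∣ t := by
  apply three_pow_dvd_two_pow_sub_one L t
  have h1 : (2 : ℤ) ^ i - 2 ^ (i + t) = -(2 ^ i * (2 ^ t - 1)) := by
    rw [pow_add]; ring
  rw [h1, dvd_neg] at h
  have hcop : IsCoprime (3 ^ L : ℤ) (2 ^ i) := by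
    apply IsCoprime.pow
    exact ⟨1, -1, by norm_num⟩
  have h2 := hcop.dvd_of_dvd_mul_left h
  have h3 : ((2 ^ t - 1 : ℕ) : ℤ) = 2 ^ t - 1 := by
    rw [Nat.cast_sub (Nat.one_le_two_pow)]
    push_cast
    ring
  rw [← h3] at h2
  exact_mod_cast h2

private theorem R2_fibre (v m1 n : ℕ) (hm : ¬ 3 ∣ m1) (h : v < n) (i i' : ℕ)
    (hd : ((3 ^ n : ℕ) : ℤ) ∣ ((3 ^ v * m1 : ℕ) : ℤ) * 2 ^ i - ((3 ^ v * m1 : ℕ) : ℤ) * 2 ^ i') :
    i' ≡ i [MOD 3 ^ (n - v - 1)] := by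
  have h1 : ((3 ^ v * m1 : ℕ) : ℤ) * 2 ^ i - ((3 ^ v * m1 : ℕ) : ℤ) * 2 ^ i'
      = 3 ^ v * (m1 * (2 ^ i - 2 ^ i')) := by
    push_cast; ring
  have h2 : ((3 ^ n : ℕ) : ℤ) = 3 ^ v * 3 ^ (n - v) := by
    push_cast
    rw [← pow_add]
    congr 1
    omega
  rw [h1, h2] at hd
  have h3 := Int.dvd_of_mul_dvd_mul_left (by positivity) hd
  have hcop : IsCoprime (3 ^ (n - v) : ℤ) (m1 : ℤ) := by
    apply IsCoprime.pow_left
    rw [Int.isCoprime_iff_gcd_eq_one]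
    have : Nat.Coprime 3 m1 := (Nat.Prime.coprime_iff_not_dvd Nat.prime_three).2 hm
    exact this
  have h4 := hcop.dvd_of_dvd_mul_left h3
  rcases le_total i i' with hle | hle
  · obtain ⟨t, rfl⟩ := Nat.exists_eq_add_of_le hle
    have h5 := R2_two_modEq (n - v) i t h4
    exact ((Nat.modEq_iff_dvd' hle).2 (by rwa [Nat.add_sub_cancel_left])).symm
  · obtain ⟨t, rfl⟩ := Nat.exists_eq_add_of_le hle
    have h5 := R2_two_modEq (n - v) i' t (by rw [← dvd_neg, neg_sub]; exact h4)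
    exact (Nat.modEq_iff_dvd' hle).2 (by rwa [Nat.add_sub_cancel_left])

theorem bessel3 (m n : ℕ) (hm : 1 ≤ m) (x : ℝ) :
    ∑ j ∈ range (3 ^ n), ‖avg (3 ^ n) 1 (fun y => e (m * y)) (x + j / 3 ^ n)‖ ^ 2 ≤ 3 * m := by
  rcases Nat.lt_or_ge m (3 ^ n) with hlt | hge
  · obtain ⟨v, m1, hm1, hmv⟩ := Nat.exists_eq_pow_mul_and_not_dvd (n := m) (by omega) 3 (by norm_num)
    have hm1pos : 1 ≤ m1 := by
      rcases Nat.eq_zero_or_pos m1 with h0 | h0
      · rw [h0] at hm1; exact absurd (dvd_zero 3) hm1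
      · exact h0
    have hvm : 3 ^ v ≤ m := by
      rw [hmv]; exact Nat.le_mul_of_pos_right _ hm1pos
    have hn : v < n := by
      have h1 : 3 ^ v < 3 ^ n := lt_of_le_of_lt hvm hlt
      exact (Nat.pow_lt_pow_iff_right (by norm_num)).1 h1
    set φ : ℕ → ℤ := fun i => (m : ℤ) * 2 ^ i with hφ
    set s : Finset ℕ := range (3 ^ n) with hs
    have hb := P2.bessel_aux s φ (3 ^ n) (by positivity) x
    have hcard : ((s ×ˢ s).filter fun p => ((3 ^ n : ℕ) : ℤ) ∣ φ p.1 - φ p.2).card ≤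
        3 ^ n * 3 ^ (v + 1) := by
      rw [Finset.card_filter, Finset.sum_product]
      have h1 : ∀ t ∈ s, ∑ u ∈ s, (if ((3 ^ n : ℕ) : ℤ) ∣ φ t - φ u then 1 else 0)
          ≤ 3 ^ (v + 1) := by
        intro t _
        rw [← Finset.card_filter]
        have hE : 3 ^ (v + 1) = 3 ^ (n - (n - v - 1)) := by congr 1; omega
        rw [hE]
        apply R2_card_class_le n (n - v - 1) t (by omega)
        · intro k hk
          exact Finset.mem_range.1 (Finset.mem_filter.1 hk).1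
        · intro k hk
          have hk2 := (Finset.mem_filter.1 hk).2
          apply R2_fibre v m1 n hm1 hn t k
          rw [← hmv]
          exact hk2
      refine (Finset.sum_le_sum h1).trans ?_
      rw [hs]
      simp
    have h5 : ∀ j ∈ range (3 ^ n), ‖avg (3 ^ n) 1 (fun y => e (m * y)) (x + j / 3 ^ n)‖ ^ 2 =
        ‖∑ t ∈ s, e (φ t * (x + j / (3 ^ n : ℕ)))‖ ^ 2 / (3 ^ n) ^ 2 := by
      intro j _
      unfold avg
      rw [norm_div, div_pow]
      congr 2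
      · congr 1
        rw [hs]
        apply Finset.sum_congr rfl
        intro i _
        rw [Finset.sum_range_one]
        simp only [hφ]
        push_cast
        ring_nf
      · rw [norm_mul]
        simp
    rw [Finset.sum_congr rfl h5, ← Finset.sum_div, div_le_iff₀ (by positivity)]
    refine hb.trans ?_
    have hcard' : (((s ×ˢ s).filter fun p => ((3 ^ n : ℕ) : ℤ) ∣ φ p.1 - φ p.2).card : ℝ) ≤
        3 ^ n * 3 ^ (v + 1) := by exact_mod_cast hcard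
    have hvR : (3 : ℝ) ^ v ≤ m := by exact_mod_cast hvm
    calc ((3 ^ n : ℕ) : ℝ) * (((s ×ˢ s).filter fun p => ((3 ^ n : ℕ) : ℤ) ∣ φ p.1 - φ p.2).card : ℝ)
        ≤ ((3 ^ n : ℕ) : ℝ) * (3 ^ n * 3 ^ (v + 1)) := by gcongr
      _ = 3 * (3 : ℝ) ^ v * (3 ^ n) ^ 2 := by push_cast; ring
      _ ≤ 3 * m * (3 ^ n) ^ 2 := by gcongr
  · have h1 : ∀ j ∈ range (3 ^ n),
        ‖avg (3 ^ n) 1 (fun y => e (m * y)) (x + j / 3 ^ n)‖ ^ 2 ≤ 1 := by
      intro j _
      have h2 : ‖avg (3 ^ n) 1 (fun y => e (m * y)) (x + j / 3 ^ n)‖ ≤ 1 := by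
        unfold avg
        rw [norm_div, div_le_one (by simp)]
        calc ‖∑ i ∈ range (3 ^ n), ∑ k ∈ range 1, e (m * (2 ^ i * 3 ^ k * (x + j / 3 ^ n)))‖
            ≤ ∑ i ∈ range (3 ^ n), (1 : ℝ) := by
              refine (norm_sum_le _ _).trans (Finset.sum_le_sum fun i _ => ?_)
              rw [Finset.sum_range_one, P2.norm_e]
          _ = ‖((3 ^ n : ℕ) : ℂ) * ((1 : ℕ) : ℂ)‖ := by simp
      calc ‖avg (3 ^ n) 1 (fun y => e (m * y)) (x + j / 3 ^ n)‖ ^ 2 ≤ 1 ^ 2 :=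
            pow_le_pow_left₀ (norm_nonneg _) h2 2
        _ = 1 := by norm_num
    calc ∑ j ∈ range (3 ^ n), ‖avg (3 ^ n) 1 (fun y => e (m * y)) (x + j / 3 ^ n)‖ ^ 2
        ≤ ∑ j ∈ range (3 ^ n), (1 : ℝ) := Finset.sum_le_sum h1
      _ = ((3 ^ n : ℕ) : ℝ) := by simp
      _ ≤ m := by exact_mod_cast hge
      _ ≤ 3 * m := by
          have : (0 : ℝ) ≤ m := by positivity
          linarith

end Pool.Agent.Helper88.MR
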