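import Mathlib
import Pool.Agent.Helper61.FR.St.P4

/-!
# MR-R4: the entropies of a profile that is invariant under `x ↦ 3 x`

Proof.  Copy `ent_step` and `ent_chain` (`Pool/Agent/Helper61/FR/St/P4.lean`) with `3 ^ n` in place of
`2 ^ n` and `h3` in place of `hp.inv_eq`.
-/

set_option autoImplicit false

open MeasureTheory Finset

namespace Pool.Agent.Helper88.MR

open Pool.Agent.Helper61.FR

variable {p : ℕ → ℕ → ℝ}

theorem ent_step3 (hp : Profile p) (h3 : ∀ D n a, 1 ≤ D → a < D →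
      p D a = ∑ j ∈ range (3 ^ n), p (D * 3 ^ n) (a + D * j))
    (D s n : ℕ) (hD : 1 ≤ D) (hs : 1 ≤ s) :
    ent p (D * s * 3 ^ n) - ent p (D * s) ≤ ent p (D * 3 ^ n) - ent p D := by
  have hDs : 1 ≤ D * s := Nat.mul_pos hD hs
  have hB : 1 ≤ 3 ^ n := (Nat.one_le_pow _ _ (by norm_num))
  -- the conditional entropies
  have key : ∀ E : ℕ, 1 ≤ E → ent p (E * 3 ^ n) - ent p E = ∑ c ∈ range E, ∑ j ∈ range (3 ^ n),
      p (E * 3 ^ n) (c + E * j) * (Real.log (p E c) - Real.log (p (E * 3 ^ n) (c + E * j))) := by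
    intro E hE
    unfold ent
    rw [P4.sum_blocks' (fun c => Real.negMulLog (p (E * 3 ^ n) c)), ← Finset.sum_sub_distrib]
    refine Finset.sum_congr rfl fun c hc => ?_
    have h1 := h3 E n c hE (Finset.mem_range.1 hc)
    have h2 : Real.negMulLog (p E c) =
        ∑ j ∈ range (3 ^ n), -(p (E * 3 ^ n) (c + E * j) * Real.log (p E c)) := by
      rw [Finset.sum_neg_distrib, ← Finset.sum_mul, ← h1, Real.negMulLog, neg_mul]
    rw [h2, ← Finset.sum_sub_distrib]
    refine Finset.sum_congr rfl fun j _ => ?_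
    rw [Real.negMulLog]
    ring
  rw [key _ hDs, key _ hD]
  rw [P4.sum_blocks (fun c' => ∑ j ∈ range (3 ^ n), p (D * s * 3 ^ n) (c' + D * s * j) *
    (Real.log (p (D * s) c') - Real.log (p (D * s * 3 ^ n) (c' + D * s * j))))]
  refine Finset.sum_le_sum fun c hc => ?_
  rw [Finset.sum_comm]
  refine Finset.sum_le_sum fun j hj => ?_
  rw [Finset.mem_range] at hc hj
  have hlt : c + D * j < D * 3 ^ n := by
    calc c + D * j < D + D * j := by omega
      _ = D * (j + 1) := by ring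
      _ ≤ D * 3 ^ n := Nat.mul_le_mul_left _ hj
  have h1 : p (D * 3 ^ n) (c + D * j) =
      ∑ u ∈ range s, p (D * s * 3 ^ n) (c * s + u + D * s * j) := by
    rw [hp.refine_eq (D * 3 ^ n) s (c + D * j) (Nat.mul_pos hD hB) hs hlt]
    refine Finset.sum_congr rfl fun u _ => ?_
    congr 1
    · ring
    · ring
  have h2 : p D c = ∑ u ∈ range s, p (D * s) (c * s + u) := hp.refine_eq D s c hD hs hc
  rw [h1, h2]
  refine P4.logsum _ _ _ (fun u _ => hp.nonneg _ _) fun u hu => ?_
  rw [Finset.mem_range] at hu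
  have h3a : c * s + u < D * s := by
    calc c * s + u < c * s + s := by omega
      _ = (c + 1) * s := by ring
      _ ≤ D * s := Nat.mul_le_mul_right _ hc
  rw [h3 (D * s) n (c * s + u) hDs h3a]
  exact Finset.single_le_sum (f := fun j => p (D * s * 3 ^ n) (c * s + u + D * s * j))
    (fun j _ => hp.nonneg _ _) (Finset.mem_range.2 hj)

theorem ent_chain3 (hp : Profile p) (h3 : ∀ D n a, 1 ≤ D → a < D →
      p D a = ∑ j ∈ range (3 ^ n), p (D * 3 ^ n) (a + D * j))
    (D n k : ℕ) (hD : 1 ≤ D) :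
    ent p (D * 3 ^ (k * n)) ≤ ent p D + k * (ent p (D * 3 ^ n) - ent p D) := by
  induction k with
  | zero => simp
  | succ k ih =>
    have h1 := ent_step3 hp h3 D (3 ^ (k * n)) n hD (Nat.one_le_pow _ _ (by norm_num))
    have h2 : D * 3 ^ ((k + 1) * n) = D * 3 ^ (k * n) * 3 ^ n := by
      rw [add_mul, one_mul, pow_add, mul_assoc]
    rw [h2]
    push_cast
    linarith

end Pool.Agent.Helper88.MR
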