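import Mathlib
import Pool.Agent.Helper61.FR.St.P1
import Pool.Agent.Helper61.FR.St.P4

/-!
# MR-R5: comparison of the entropies of two scales

Proof.  Let `A a = {x | ⌊D x⌋₊ = a}` (`a < D`), `A' a' = {x | ⌊D' x⌋₊ = a'}` (`a' < D'`) and
`t a a' = μ (A a ∩ A' a')`.  As `D' ≤ D`, an interval `[a / D, (a + 1) / D)` meets at most two of the
intervals `[a' / D', (a' + 1) / D')`, so for each `a` at most two of the numbers `t a a'` are not
`0`.  Both partitions cover `[0, 1)`, so `∑_{a'} t a a' = pr μ D a`, `∑_a t a a' = pr μ D' a'`.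
Subadditivity of `negMulLog` for sums of nonnegative numbers with sum at most `1`
(`negMulLog_sum_le` in `Pool/Agent/Helper61/FR/St/P4.lean`) gives
`ent (pr μ) D' ≤ ∑_{a, a'} negMulLog (t a a')`, and for each `a`, by concavity,
`∑_{a'} negMulLog (t a a') ≤ negMulLog (pr μ D a) + pr μ D a * log 2`
(two numbers `u, v ≥ 0`: `negMulLog u + negMulLog v ≤ negMulLog (u + v) + (u + v) log 2`, e.g. by
`logsum` there).  Sum over `a`.
-/

set_option autoImplicit false

open MeasureTheory Finset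

namespace Pool.Agent.Helper88.MR

open Pool.Agent.Helper61.FR

theorem R5_floor_mem (D D' a a' : ℕ) (hD' : 1 ≤ D') (hD : D' ≤ D) (x : ℝ)
    (h1 : ⌊(D : ℝ) * x⌋₊ = a) (h2 : ⌊(D' : ℝ) * x⌋₊ = a') :
    a' = D' * a / D ∨ a' = D' * a / D + 1 := by
  have hD0 : (0 : ℝ) < D := by exact_mod_cast (le_trans hD' hD)
  have hD0' : (0 : ℝ) < D' := by exact_mod_cast hD'
  have hDn : 0 < D := le_trans hD' hD
  rcases le_or_gt 0 x with hx | hx
  · have e1 : (a : ℝ) ≤ D * x := by rw [← h1]; exact Nat.floor_le (mul_nonneg hD0.le hx)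
    have e2 : (D : ℝ) * x < a + 1 := by rw [← h1]; exact Nat.lt_floor_add_one _
    have e3 : (a' : ℝ) ≤ D' * x := by rw [← h2]; exact Nat.floor_le (mul_nonneg hD0'.le hx)
    have e4 : (D' : ℝ) * x < a' + 1 := by rw [← h2]; exact Nat.lt_floor_add_one _
    have e5 : (D' : ℝ) * a < D * (a' + 1) := by
      calc (D' : ℝ) * a ≤ D' * (D * x) := mul_le_mul_of_nonneg_left e1 hD0'.le
        _ = D * (D' * x) := by ring
        _ < D * (a' + 1) := mul_lt_mul_of_pos_left e4 hD0
    have e6 : (D : ℝ) * a' < D' * (a + 1) := by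
      calc (D : ℝ) * a' ≤ D * (D' * x) := mul_le_mul_of_nonneg_left e3 hD0.le
        _ = D' * (D * x) := by ring
        _ < D' * (a + 1) := mul_lt_mul_of_pos_left e2 hD0'
    have e5' : D' * a < D * (a' + 1) := by exact_mod_cast e5
    have e6' : D * a' < D' * (a + 1) := by exact_mod_cast e6
    have e7 : D' * a / D < a' + 1 := by
      rw [Nat.div_lt_iff_lt_mul hDn]
      rw [mul_comm D (a' + 1)] at e5'
      exact e5'
    have e8 : D' * a < D * (D' * a / D + 1) := Nat.lt_mul_div_succ _ hDn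
    have e9 : a' < D' * a / D + 2 := by
      by_contra hcon
      push Not at hcon
      have e10 : D * (D' * a / D + 2) ≤ D * a' := Nat.mul_le_mul_left _ hcon
      nlinarith
    omega
  · have e1 : a = 0 := by
      rw [← h1, Nat.floor_eq_zero]
      nlinarith
    have e2 : a' = 0 := by
      rw [← h2, Nat.floor_eq_zero]
      nlinarith
    left
    rw [e1, e2]
    simp

theorem R5_split {μ : Measure ℝ} (h : Inv23 μ) (D : ℕ) (hD : 1 ≤ D) (S : Set ℝ)
    (hS : MeasurableSet S) :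
    μ.real S = ∑ a ∈ range D, μ.real (S ∩ {x : ℝ | ⌊(D : ℝ) * x⌋₊ = a}) := by
  have := h.prob
  rw [← measureReal_biUnion_finset]
  · have h1 : (⋃ a ∈ range D, S ∩ {x : ℝ | ⌊(D : ℝ) * x⌋₊ = a}) =ᵐ[μ] S := by
      filter_upwards [h.supp] with x hx
      have h2 : x ∈ (⋃ a ∈ range D, S ∩ {x : ℝ | ⌊(D : ℝ) * x⌋₊ = a}) ↔ x ∈ S := by
        simp only [Set.mem_iUnion, Set.mem_inter_iff, Finset.mem_range, exists_prop]
        constructor
        · rintro ⟨a, -, h3, -⟩
          exact h3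
        · intro h3
          refine ⟨⌊(D : ℝ) * x⌋₊, ?_, h3, rfl⟩
          have hD0 : (0 : ℝ) < D := by exact_mod_cast hD
          rw [Nat.floor_lt (mul_nonneg hD0.le hx.1)]
          nlinarith [hx.2]
      exact propext h2
    rw [measureReal_congr h1]
  · intro a _ b _ hab
    rw [Function.onFun, Set.disjoint_left]
    rintro x ⟨-, hx⟩ ⟨-, hx'⟩
    exact hab (hx.symm.trans hx')
  · intro a _
    exact hS.inter (measurableSet_floor_eq D a)

theorem R5_conc (S : Finset ℕ) (x : ℕ → ℝ) (hx : ∀ u ∈ S, 0 ≤ x u) (hS : S.card ≤ 2) :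
    ∑ u ∈ S, Real.negMulLog (x u) ≤
      Real.negMulLog (∑ u ∈ S, x u) + (∑ u ∈ S, x u) * Real.log 2 := by
  obtain ⟨X, hX⟩ : ∃ X, X = ∑ u ∈ S, x u := ⟨_, rfl⟩
  have hX0 : 0 ≤ X := by rw [hX]; exact Finset.sum_nonneg hx
  have h1 := P4.logsum S x (fun _ => X) hx fun u hu => by
    rw [hX]; exact Finset.single_le_sum hx hu
  rw [← hX] at h1 ⊢
  rcases hX0.eq_or_lt with h0 | h0
  · have h2 : ∀ u ∈ S, x u = 0 := (Finset.sum_eq_zero_iff_of_nonneg hx).1 (by rw [← hX, ← h0])
    rw [Finset.sum_eq_zero fun u hu => by rw [h2 u hu, Real.negMulLog_zero], ← h0]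
    simp
  · have hcard : 0 < S.card := by
      rw [Finset.card_pos]
      by_contra hcon
      rw [Finset.not_nonempty_iff_eq_empty] at hcon
      rw [hcon, Finset.sum_empty] at hX
      exact h0.ne' hX
    have hc0 : (0 : ℝ) < S.card := by exact_mod_cast hcard
    have hc2 : (S.card : ℝ) ≤ 2 := by exact_mod_cast hS
    have h2 : ∑ u ∈ S, x u * (Real.log X - Real.log (x u)) =
        X * Real.log X + ∑ u ∈ S, Real.negMulLog (x u) := by
      rw [hX, Finset.sum_mul, ← Finset.sum_add_distrib, ← hX]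
      refine Finset.sum_congr rfl fun u _ => ?_
      rw [Real.negMulLog]
      ring
    rw [h2, Finset.sum_const, nsmul_eq_mul, Real.log_mul hc0.ne' h0.ne'] at h1
    have h3 : Real.log S.card ≤ Real.log 2 := Real.log_le_log hc0 hc2
    have h4 := mul_le_mul_of_nonneg_left h3 h0.le
    rw [Real.negMulLog]
    linarith

theorem ent_le_of_le {μ : Measure ℝ} (h : Inv23 μ) (D D' : ℕ) (hD' : 1 ≤ D') (hD : D' ≤ D) :
    ent (pr μ) D' ≤ ent (pr μ) D + Real.log 2 := by
  have hD1 : 1 ≤ D := le_trans hD' hD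
  obtain ⟨t, ht⟩ : ∃ t : ℕ → ℕ → ℝ, t = fun a a' =>
      μ.real ({x : ℝ | ⌊(D : ℝ) * x⌋₊ = a} ∩ {x : ℝ | ⌊(D' : ℝ) * x⌋₊ = a'}) := ⟨_, rfl⟩
  have ht0 : ∀ a a', 0 ≤ t a a' := by
    intro a a'
    rw [ht]
    exact measureReal_nonneg
  have h1 : ∀ a, pr μ D a = ∑ a' ∈ range D', t a a' := by
    intro a
    rw [ht]
    exact R5_split h D' hD' _ (measurableSet_floor_eq D a)
  have h2 : ∀ a', pr μ D' a' = ∑ a ∈ range D, t a a' := by
    intro a'
    rw [ht, pr, R5_split h D hD1 _ (measurableSet_floor_eq D' a')]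
    refine Finset.sum_congr rfl fun a _ => ?_
    rw [Set.inter_comm]
  have h3 : ∀ a a', t a a' ≠ 0 → a' = D' * a / D ∨ a' = D' * a / D + 1 := by
    intro a a' hne
    by_contra hcon
    apply hne
    have h4 : {x : ℝ | ⌊(D : ℝ) * x⌋₊ = a} ∩ {x : ℝ | ⌊(D' : ℝ) * x⌋₊ = a'} = ∅ := by
      rw [Set.eq_empty_iff_forall_notMem]
      rintro x ⟨hx, hx'⟩
      exact hcon (R5_floor_mem D D' a a' hD' hD x hx hx')
    rw [ht]
    simp only
    rw [h4, measureReal_empty]
  calc ent (pr μ) D' = ∑ a' ∈ range D', Real.negMulLog (∑ a ∈ range D, t a a') := by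
        rw [ent]
        exact Finset.sum_congr rfl fun a' _ => by rw [h2]
    _ ≤ ∑ a' ∈ range D', ∑ a ∈ range D, Real.negMulLog (t a a') :=
        Finset.sum_le_sum fun a' _ => P4.negMulLog_sum_le _ _ fun a _ => ht0 a a'
    _ = ∑ a ∈ range D, ∑ a' ∈ range D', Real.negMulLog (t a a') := Finset.sum_comm
    _ ≤ ∑ a ∈ range D, (Real.negMulLog (pr μ D a) + pr μ D a * Real.log 2) := by
        refine Finset.sum_le_sum fun a _ => ?_
        obtain ⟨S, hS⟩ : ∃ S : Finset ℕ, S = (range D').filter fun a' => t a a' ≠ 0 := ⟨_, rfl⟩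
        have e1 : ∑ a' ∈ range D', Real.negMulLog (t a a') =
            ∑ a' ∈ S, Real.negMulLog (t a a') := by
          rw [hS, Finset.sum_filter_of_ne]
          intro a' _ hne h0
          rw [h0, Real.negMulLog_zero] at hne
          exact hne rfl
        have e2 : pr μ D a = ∑ a' ∈ S, t a a' := by
          rw [h1, hS, Finset.sum_filter_of_ne]
          intro a' _ hne
          exact hne
        have e3 : S.card ≤ 2 := by
          have e4 : S ⊆ {D' * a / D, D' * a / D + 1} := by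
            intro a' ha'
            rw [hS, Finset.mem_filter] at ha'
            rw [Finset.mem_insert, Finset.mem_singleton]
            exact h3 a a' ha'.2
          exact le_trans (Finset.card_le_card e4) Finset.card_le_two
        rw [e1, e2]
        exact R5_conc S _ (fun u _ => ht0 a u) e3
    _ = ent (pr μ) D + Real.log 2 := by
        rw [Finset.sum_add_distrib, ← Finset.sum_mul, (profile_pr h).sum_eq_one D hD1, one_mul]
        rfl

end Pool.Agent.Helper88.MR
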