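import Mathlib
import Pool.Agent.Helper61.FR.Core
import Pool.Agent.Helper88.MR.St.R1
import Pool.Agent.Helper88.MR.St.R2
import Pool.Agent.Helper88.MR.St.R3
import Pool.Agent.Helper88.MR.St.R4
import Pool.Agent.Helper88.MR.St.R5

/-!
# MR-R6: small entropy from convergence in measure of the averages under `x ↦ 2 x`
-/

set_option autoImplicit false

open MeasureTheory Finset Filter

namespace Pool.Agent.Helper88.MR

open Pool.Agent.Helper61.FR

theorem avg_close3 (m n : ℕ) (x : ℝ) (hx : 0 ≤ x) :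
    ‖avg (3 ^ n) 1 (fun y => e (m * y)) x -
      avg (3 ^ n) 1 (fun y => e (m * y))
        ((⌊((2 ^ (3 ^ n) * 3 ^ n : ℕ) : ℝ) * x⌋₊ : ℝ) / (2 ^ (3 ^ n) * 3 ^ n : ℕ))‖ ≤
      2 * Real.pi * m / 3 ^ n := by
  set D : ℝ := ((2 ^ (3 ^ n) * 3 ^ n : ℕ) : ℝ) with hD
  have hD' : D = 2 ^ (3 ^ n) * 3 ^ n := by rw [hD]; push_cast; ring
  have hD0 : 0 < D := by rw [hD']; positivity
  set x' : ℝ := (⌊D * x⌋₊ : ℝ) / D with hx'
  have hxx : |x - x'| ≤ 1 / D := by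
    have h1 : (⌊D * x⌋₊ : ℝ) ≤ D * x := Nat.floor_le (by positivity)
    have h2 : D * x < (⌊D * x⌋₊ : ℝ) + 1 := Nat.lt_floor_add_one _
    have h3 : x - x' = (D * x - (⌊D * x⌋₊ : ℝ)) / D := by
      rw [hx']; field_simp
    rw [h3, abs_of_nonneg (div_nonneg (by linarith) hD0.le)]
    exact div_le_div_of_nonneg_right (by linarith) hD0.le
  have hN1 : (1 : ℝ) ≤ ((3 ^ n : ℕ) : ℝ) * ((1 : ℕ) : ℝ) := by
    have : 1 ≤ 3 ^ n := Nat.one_le_pow _ _ (by norm_num)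
    have h1 : (1 : ℝ) ≤ ((3 ^ n : ℕ) : ℝ) := by exact_mod_cast this
    simpa using h1
  have hdiff : avg (3 ^ n) 1 (fun y => e (m * y)) x - avg (3 ^ n) 1 (fun y => e (m * y)) x' =
      (∑ i ∈ range (3 ^ n), ∑ k ∈ range 1,
        (e (m * (2 ^ i * 3 ^ k * x)) - e (m * (2 ^ i * 3 ^ k * x')))) /
        (((3 ^ n : ℕ) : ℂ) * ((1 : ℕ) : ℂ)) := by
    unfold avg
    rw [← sub_div]
    congr 1
    simp only [← Finset.sum_sub_distrib]
  rw [hdiff, norm_div]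
  have hnorm : ‖(((3 ^ n : ℕ) : ℂ) * ((1 : ℕ) : ℂ))‖ = ((3 ^ n : ℕ) : ℝ) * ((1 : ℕ) : ℝ) := by
    rw [norm_mul, Complex.norm_natCast, Complex.norm_natCast]
  rw [hnorm]
  have hterm : ∀ i ∈ range (3 ^ n), ∀ k ∈ range 1,
      ‖e (m * (2 ^ i * 3 ^ k * x)) - e (m * (2 ^ i * 3 ^ k * x'))‖ ≤
        2 * Real.pi * m / D * 2 ^ i := by
    intro i _ k hk
    have hk0 : k = 0 := by
      have := Finset.mem_range.1 hk
      omega
    subst hk0
    refine le_trans (norm_e_sub_le _ _) ?_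
    have h1 : (m : ℝ) * (2 ^ i * 3 ^ 0 * x) - m * (2 ^ i * 3 ^ 0 * x') =
        (m * 2 ^ i) * (x - x') := by ring
    rw [h1, abs_mul, abs_of_nonneg (by positivity : (0 : ℝ) ≤ m * 2 ^ i)]
    calc 2 * Real.pi * ((m : ℝ) * 2 ^ i * |x - x'|)
        ≤ 2 * Real.pi * ((m : ℝ) * 2 ^ i * (1 / D)) := by gcongr
      _ = 2 * Real.pi * m / D * 2 ^ i := by ring
  have hsum : ‖∑ i ∈ range (3 ^ n), ∑ k ∈ range 1,
      (e (m * (2 ^ i * 3 ^ k * x)) - e (m * (2 ^ i * 3 ^ k * x')))‖ ≤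
      2 * Real.pi * m / D * ∑ i ∈ range (3 ^ n), (2 : ℝ) ^ i := by
    rw [Finset.mul_sum]
    refine le_trans (norm_sum_le _ _) (Finset.sum_le_sum fun i hi => ?_)
    rw [Finset.sum_range_one]
    exact hterm i hi 0 (Finset.mem_range.2 (by norm_num))
  have hg2 : ∑ i ∈ range (3 ^ n), (2 : ℝ) ^ i ≤ 2 ^ (3 ^ n) := by
    have := geom_sum_eq (by norm_num : (2 : ℝ) ≠ 1) (3 ^ n)
    rw [this]
    have : (0 : ℝ) < 2 ^ (3 ^ n) := by positivity
    linarith [show ((2 : ℝ) ^ (3 ^ n) - 1) / (2 - 1) = 2 ^ (3 ^ n) - 1 by norm_num]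
  have hfin : ‖∑ i ∈ range (3 ^ n), ∑ k ∈ range 1,
      (e (m * (2 ^ i * 3 ^ k * x)) - e (m * (2 ^ i * 3 ^ k * x')))‖ ≤
      2 * Real.pi * m / 3 ^ n := by
    refine le_trans hsum ?_
    calc 2 * Real.pi * m / D * ∑ i ∈ range (3 ^ n), (2 : ℝ) ^ i
        ≤ 2 * Real.pi * m / D * 2 ^ (3 ^ n) := by gcongr
      _ = 2 * Real.pi * m / 3 ^ n := by
          rw [hD']
          field_simp
  exact le_trans (div_le_self (norm_nonneg _) hN1) hfin

/-- One step: the conditional entropy of `n` ternary digits given the following ones is small. -/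
lemma step_le3 {μ : Measure ℝ} (h : Inv23 μ) (m n : ℕ) (hm : 1 ≤ m)
    (b ε : ℝ) (hε : 0 < ε) (hε1 : ε ≤ 1) (hφ : ∫ y, e (m * y) ∂μ ≠ 0)
    (hb : μ.real (dev μ (3 ^ n) 1 m (‖∫ y, e (m * y) ∂μ‖ / 4)) ≤ b)
    (hcl : 2 * Real.pi * m / 3 ^ n ≤ ‖∫ y, e (m * y) ∂μ‖ / 4) :
    ent (pr μ) (2 ^ (3 ^ n) * 3 ^ n) ≤ ent (pr μ) (2 ^ (3 ^ n)) +
      (b + ε) * (n * Real.log 3) +
      (Real.log (12 * m / (ε * ‖∫ y, e (m * y) ∂μ‖ ^ 2)) + 1) := by
  have := h.prob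
  set φ : ℂ := ∫ y, e (m * y) ∂μ with hφd
  have hφ0 : 0 < ‖φ‖ := norm_pos_iff.mpr hφ
  have hφ1 : ‖φ‖ ≤ 1 := by
    refine (norm_integral_le_integral_norm _).trans ?_
    simp only [norm_e]
    simp
  set D : ℕ := 2 ^ (3 ^ n) with hD
  have hD1 : 1 ≤ D := Nat.one_le_pow _ _ (by norm_num)
  have hB1 : 1 ≤ 3 ^ n := Nat.one_le_pow _ _ (by norm_num)
  set S : ℕ → ℂ := fun a => avg (3 ^ n) 1 (fun y => e (m * y)) ((a : ℝ) / (D * 3 ^ n : ℕ)) with hS
  set κ : ℝ := ‖φ‖ / 2 with hκ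
  have hκ0 : 0 < κ := by positivity
  set R : ℝ := 3 * m with hR
  have hm0 : (1 : ℝ) ≤ m := by exact_mod_cast hm
  have hR0 : 0 < R := by positivity
  have hR4 : 3 ≤ R := by
    rw [hR]
    linarith
  set B : Finset ℕ := (range (D * 3 ^ n)).filter fun a => ‖S a‖ < κ with hB
  set δ : ℝ := ε * κ ^ 2 / R with hδ
  have hδ0 : 0 < δ := by positivity
  have hδ1 : δ ≤ 1 := by
    rw [hδ, div_le_one hR0]
    have : κ ^ 2 ≤ 1 := by
      have : κ ≤ 1 := by rw [hκ]; linarith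
      nlinarith
    nlinarith
  have key := stage1_gen (profile_pr h) D (3 ^ n) hD1 hB1
    (fun a ha => pr_inv3 h D n a hD1 ha) S B R κ b δ hR0.le hκ0 hδ0 hδ1 ?_ ?_ ?_
  · refine key.trans (le_of_eq ?_)
    have e1 : δ * R / κ ^ 2 = ε := by
      rw [hδ]; field_simp
    have e2 : Real.log (1 / δ) = Real.log (12 * m / (ε * ‖φ‖ ^ 2)) := by
      congr 1
      rw [hδ, hκ, hR]
      field_simp
      ring
    have e3 : Real.log ((3 ^ n : ℕ) : ℝ) = n * Real.log 3 := by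
      push_cast
      rw [Real.log_pow]
    rw [e1, e2, e3]; ring
  · intro c _
    have hb := bessel3 m n hm ((c : ℝ) / (D * 3 ^ n : ℕ))
    refine le_trans (le_of_eq (sum_congr rfl fun j _ => ?_)) hb
    congr 2
    simp only [hS]
    congr 1
    have hDr : (D : ℝ) ≠ 0 := by positivity
    push_cast
    field_simp
  · rw [sum_pr]
    refine le_trans (ENNReal.toReal_mono (measure_ne_top μ _) (measure_mono_ae ?_)) hb
    filter_upwards [h.supp] with x hx hxB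
    simp only [hB, mem_filter, mem_range] at hxB
    have hx0 : 0 ≤ x := hx.1
    have hcl' := avg_close3 m n x hx0
    have e1 : avg (3 ^ n) 1 (fun y => e (m * y))
        ((⌊((2 ^ (3 ^ n) * 3 ^ n : ℕ) : ℝ) * x⌋₊ : ℝ) / (2 ^ (3 ^ n) * 3 ^ n : ℕ)) =
        S ⌊((D * 3 ^ n : ℕ) : ℝ) * x⌋₊ := rfl
    rw [e1] at hcl'
    have h3 : ‖avg (3 ^ n) 1 (fun y => e (m * y)) x‖ <
        3 / 4 * ‖φ‖ := by
      have := norm_sub_norm_le (avg (3 ^ n) 1 (fun y => e (m * y)) x)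
        (S ⌊((D * 3 ^ n : ℕ) : ℝ) * x⌋₊)
      have h4 := hxB.2
      rw [hκ] at h4
      linarith [hcl'.trans hcl]
    show ‖φ‖ / 4 < ‖_ - φ‖
    have := norm_sub_norm_le φ (avg (3 ^ n) 1 (fun y => e (m * y)) x)
    rw [norm_sub_rev] at this
    linarith
  · intro a ha haB
    simp only [hB, mem_filter, mem_range, not_and, not_lt] at haB
    exact haB ha

/-- The one-step bounds of stage 1 give zero entropy, quantitatively: at some scale `20 s` the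
entropy is at most `s log 2 / 4`. -/
theorem exists_small_entropy3 {μ : Measure ℝ} (h : Inv23 μ) (m : ℕ) (hm : 1 ≤ m)
    (hφ : ∫ y, e (m * y) ∂μ ≠ 0)
    (hW : Tendsto (fun q : ℕ => μ.real (dev μ (3 ^ q) 1 m (‖∫ y, e (m * y) ∂μ‖ / 4))) atTop
      (nhds 0)) :
    ∃ s : ℕ, 3 ≤ s ∧ ent (pr μ) (2 ^ (20 * s)) ≤ s * Real.log 2 / 4 := by
  set φ : ℂ := ∫ y, e (m * y) ∂μ with hφd
  have hφ0 : 0 < ‖φ‖ := norm_pos_iff.mpr hφ
  have hl2 : 0 < Real.log 2 := Real.log_pos (by norm_num)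
  have hl3 : 0 < Real.log 3 := Real.log_pos (by norm_num)
  have hl32 : Real.log 3 ≤ 2 * Real.log 2 := by
    have : Real.log ((2 : ℝ) ^ 2) = 2 * Real.log 2 := by
      rw [Real.log_pow]; norm_num
    rw [← this]
    exact Real.log_le_log (by norm_num) (by norm_num)
  set c₁ : ℝ := Real.log (12 * m / (1 / 1000 * ‖φ‖ ^ 2)) + 1 with hc₁
  -- choose `n`
  have hlog : Tendsto (fun n : ℕ => (n : ℝ) * Real.log 3 * (1 / 2000)) atTop atTop :=
    (tendsto_natCast_atTop_atTop.atTop_mul_const hl3).atTop_mul_const (by norm_num)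
  have hgeo : Tendsto (fun n : ℕ => 2 * Real.pi * m * (1 / 3 : ℝ) ^ n) atTop (nhds 0) := by
    have := (tendsto_pow_atTop_nhds_zero_of_lt_one (r := (1 / 3 : ℝ)) (by norm_num)
      (by norm_num)).const_mul (2 * Real.pi * m)
    simpa using this
  obtain ⟨n, hn1, hn2, hn3, hn5⟩ := ((eventually_ge_atTop 1).and
    ((hlog.eventually_ge_atTop c₁).and ((hgeo.eventually_lt_const (u := ‖φ‖ / 4) (by positivity)).and
    (hW.eventually_lt_const (u := (1 / 1000 : ℝ)) (by norm_num))))).exists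
  have hn0 : (0 : ℝ) < n := by exact_mod_cast (by omega : 0 < n)
  have hcond2 : 2 * Real.pi * m / 3 ^ n ≤ ‖φ‖ / 4 := by
    have e1 : 2 * Real.pi * m / 3 ^ n = 2 * Real.pi * m * (1 / 3 : ℝ) ^ n := by
      rw [one_div, inv_pow]; rfl
    rw [e1]
    exact hn3.le
  have hb : μ.real (dev μ (3 ^ n) 1 m (‖φ‖ / 4)) ≤ 1 / 1000 := hn5.le
  have hstep := step_le3 h m n hm (1 / 1000) (1 / 1000) (by norm_num) (by norm_num)
    hφ hb hcond2
  have hp := profile_pr h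
  set D : ℕ := 2 ^ (3 ^ n) with hD
  have hD1 : 1 ≤ D := Nat.one_le_pow _ _ (by norm_num)
  have hstep' : ent (pr μ) (D * 3 ^ n) - ent (pr μ) D ≤ n * Real.log 3 / 400 := by
    have h5 : c₁ ≤ n * Real.log 3 * (1 / 2000) := hn2
    have h6 : ent (pr μ) (D * 3 ^ n) ≤ ent (pr μ) D +
      (1 / 1000 + 1 / 1000) * (n * Real.log 3) + c₁ := hstep
    linarith
  -- choose `s`
  set k' : ℕ := 40 * 3 ^ n with hk'
  have h3n : 1 ≤ 3 ^ n := Nat.one_le_pow _ _ (by norm_num)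
  refine ⟨n * k', ?_, ?_⟩
  · have : 40 ≤ k' := by omega
    nlinarith
  have e0 : 20 * (n * k') = (20 * k') * n := by ring
  have h7 := ent_chain3 hp (fun D n a hD ha => pr_inv3 h D n a hD ha) D n (20 * k') hD1
  have h8 := ent_mono hp (3 ^ (20 * (n * k'))) D (Nat.one_le_pow _ _ (by norm_num)) hD1
  have h9 := ent_le_log hp D hD1
  have h10 := ent_le_of_le h (3 ^ (20 * (n * k'))) (2 ^ (20 * (n * k'))) Nat.one_le_two_pow
    (Nat.pow_le_pow_left (by norm_num) _)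
  rw [mul_comm (3 ^ (20 * (n * k'))) D] at h8
  rw [← e0] at h7
  have hlogD : Real.log D = 3 ^ n * Real.log 2 := by
    rw [hD]
    push_cast
    rw [Real.log_pow]
    push_cast
    ring
  have h11 : ((20 * k' : ℕ) : ℝ) * (ent (pr μ) (D * 3 ^ n) - ent (pr μ) D) ≤
      ((20 * k' : ℕ) : ℝ) * (n * Real.log 3 / 400) :=
    mul_le_mul_of_nonneg_left hstep' (Nat.cast_nonneg _)
  have h12 : ((20 * k' : ℕ) : ℝ) * (n * Real.log 3 / 400) ≤ (n * k' : ℕ) * Real.log 2 / 10 := by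
    push_cast
    have h13 : (0 : ℝ) ≤ n * k' := by positivity
    nlinarith
  have h14 : (3 : ℝ) ^ n * Real.log 2 + Real.log 2 ≤ (n * k' : ℕ) * Real.log 2 / 20 := by
    rw [hk']
    push_cast
    have h12 : (1 : ℝ) ≤ n := by exact_mod_cast hn1
    have h13 : (1 : ℝ) ≤ 3 ^ n := one_le_pow₀ (by norm_num)
    have h15 : 0 ≤ (3 : ℝ) ^ n * Real.log 2 := by positivity
    have h16 : Real.log 2 ≤ (3 : ℝ) ^ n * Real.log 2 := by nlinarith
    nlinarith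
  have h17 : 0 ≤ ((n * k' : ℕ) : ℝ) * Real.log 2 := by positivity
  linarith

end Pool.Agent.Helper88.MR
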