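import Mathlib
import Pool.Agent.Helper17.KW.St.F1

/-!
# MR-R7: small exponential sums exclude that two points are typical (averages under `x ↦ 2 x`)

Here only powers of `2` are used: `cnt N 1 V x` is the number of `i < N` with `2 ^ i x ∈ V`.

Proof.  As `window_of_sums` in `Pool/Agent/Helper17/KW/St/F2.lean` with the roles of `2` and `3`
exchanged (the numbers `N` and `D = 3 ^ n'` only have to satisfy `2 ^ r * 4 ≤ 3 ^ n'`, so
`n₁ = r + 2` works): let `C = {u' - u | u, u' ∈ U}`, so `28 |C| ≤ 28 |U| ^ 2 ≤ 2 ^ r`, take `S`, `η` from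
`equi`.  Put `x' = x + d / 3 ^ n' + τ`.  For at least `(3 / 4) N` of the `i < N` both `2 ^ i x` and
`2 ^ i x'` are in `nbhd r U`.  For such an `i` there are `u, u' ∈ U` and an integer `z` with
`|2 ^ i (x' - x) - z - (u' - u) / 2 ^ r| ≤ (3 / 2) / 2 ^ r`, and
`2 ^ i (x' - x) = d 2 ^ i / 3 ^ n' + 2 ^ i τ` with `|2 ^ i τ| ≤ 3 ^ (- n') ≤ (1 / 4) / 2 ^ r`.  So
`y i = d 2 ^ i / 3 ^ n'` satisfies the condition in `equi` for at least `(3 / 4) N > N / 4` values of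
`i < N`: contradiction.
-/

set_option autoImplicit false

open MeasureTheory Finset

namespace Pool.Agent.Helper88.MR

open Pool.Agent.Helper61.FR

open Classical in
private theorem R7_cnt_one (N : ℕ) (V : Set ℝ) (x : ℝ) :
    cnt N 1 V x = ((range N).filter fun i => (2 : ℝ) ^ i * x ∈ V).card := by
  unfold cnt
  rw [card_filter, card_filter, sum_product]
  refine sum_congr rfl fun i _ => ?_
  rw [range_one, sum_singleton, pow_zero, mul_one]

theorem window_of_sums3 (r : ℕ) (U : Finset ℕ) (hU : 48 * U.card ^ 2 < 2 ^ r) :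
    ∃ (S : Finset ℕ) (η : ℝ) (n₁ : ℕ), 0 < η ∧ (∀ m ∈ S, 1 ≤ m) ∧
      ∀ (N n' : ℕ) (d : ℤ) (τ x : ℝ), 1 ≤ N → n₁ ≤ n' → |τ| * 2 ^ N * 3 ^ n' ≤ 1 →
        (∀ m ∈ S, ‖∑ i ∈ range N, e (m * (d * 2 ^ i / 3 ^ n'))‖ ≤ η * N) →
        7 * N ≤ 8 * cnt N 1 (nbhd r U) x →
        7 * N ≤ 8 * cnt N 1 (nbhd r U) (x + d / 3 ^ n' + τ) → False := by
  classical
  set C : Finset ℤ := (U ×ˢ U).image fun p : ℕ × ℕ => ((p.2 : ℤ) - (p.1 : ℤ)) with hCdef
  have hCcard : C.card ≤ U.card ^ 2 := by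
    refine card_image_le.trans ?_
    rw [card_product, sq]
  obtain ⟨S, η, hη, hS, H⟩ := Pool.Agent.Helper17.KW.equi r C (by omega)
  refine ⟨S, η, r + 2, hη, hS, ?_⟩
  intro N n' d τ x hN hn hτ hsum h1 h2
  have h2r : (0 : ℝ) < 2 ^ r := by positivity
  have h3n : (0 : ℝ) < 3 ^ n' := by positivity
  have hnr : (4 : ℝ) * 2 ^ r ≤ 3 ^ n' := by
    calc (4 : ℝ) * 2 ^ r = 2 ^ (r + 2) := by rw [pow_add]; ring
      _ ≤ 2 ^ n' := pow_le_pow_right₀ (by norm_num) hn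
      _ ≤ 3 ^ n' := pow_le_pow_left₀ (by norm_num) (by norm_num) _
  have key := H N (fun i => (d : ℝ) * 2 ^ i / 3 ^ n') hsum
  rw [R7_cnt_one] at h1 h2
  set A := (range N).filter fun i => (2 : ℝ) ^ i * x ∈ nbhd r U with hA
  set B := (range N).filter fun i => (2 : ℝ) ^ i * (x + d / 3 ^ n' + τ) ∈ nbhd r U with hB
  have hAB : (A ∪ B).card + (A ∩ B).card = A.card + B.card := card_union_add_card_inter A B
  have hU' : (A ∪ B).card ≤ N := by
    calc (A ∪ B).card ≤ (range N).card :=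
          card_le_card (union_subset (filter_subset _ _) (filter_subset _ _))
      _ = N := card_range _
  have hsub : (A ∩ B).card ≤ ((range N).filter fun i =>
      ∃ c ∈ C, ∃ z : ℤ, |(d : ℝ) * 2 ^ i / 3 ^ n' - z - (c : ℝ) / 2 ^ r| ≤ 7 / 4 / 2 ^ r).card := by
    refine card_le_card ?_
    intro i hi
    rw [mem_inter, hA, hB, mem_filter, mem_filter] at hi
    obtain ⟨⟨hi0, u, hu, z, hz⟩, _, u', hu', z', hz'⟩ := hi
    rw [mem_filter]
    refine ⟨hi0, (u' : ℤ) - (u : ℤ), ?_, z' - z, ?_⟩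
    · rw [hCdef, mem_image]
      exact ⟨(u, u'), mem_product.2 ⟨hu, hu'⟩, rfl⟩
    · have h3k : (2 : ℝ) ^ i * |τ| ≤ 1 / 4 / 2 ^ r := by
        have hi1 : i < N := mem_range.1 hi0
        have e1 : (2 : ℝ) ^ i ≤ 2 ^ N := pow_le_pow_right₀ (by norm_num) hi1.le
        have e2 : (2 : ℝ) ^ i * |τ| * 3 ^ n' ≤ 1 := by
          calc (2 : ℝ) ^ i * |τ| * 3 ^ n' ≤ 2 ^ N * |τ| * 3 ^ n' := by gcongr
            _ = |τ| * 2 ^ N * 3 ^ n' := by ring
            _ ≤ 1 := hτ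
        have e3 : (2 : ℝ) ^ i * |τ| * (4 * 2 ^ r) ≤ 1 :=
          (mul_le_mul_of_nonneg_left hnr (by positivity)).trans e2
        rw [div_div, le_div_iff₀ (by positivity)]
        exact e3
      have hτk : |(2 : ℝ) ^ i * τ| ≤ 1 / 4 / 2 ^ r := by
        rw [abs_mul, abs_of_pos (by positivity : (0 : ℝ) < 2 ^ i)]
        exact h3k
      have e : (d : ℝ) * 2 ^ i / 3 ^ n' - ((z' - z : ℤ) : ℝ) - (((u' : ℤ) - (u : ℤ) : ℤ) : ℝ) / 2 ^ r
          = ((2 : ℝ) ^ i * (x + d / 3 ^ n' + τ) - z' - (u' + 1 / 2) / 2 ^ r)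
            - ((2 : ℝ) ^ i * x - z - (u + 1 / 2) / 2 ^ r) - 2 ^ i * τ := by
        push_cast
        field_simp
        ring
      rw [e]
      have t1 := abs_sub ((2 : ℝ) ^ i * (x + d / 3 ^ n' + τ) - z' - (u' + 1 / 2) / 2 ^ r
            - ((2 : ℝ) ^ i * x - z - (u + 1 / 2) / 2 ^ r)) (2 ^ i * τ)
      have t2 := abs_sub ((2 : ℝ) ^ i * (x + d / 3 ^ n' + τ) - z' - (u' + 1 / 2) / 2 ^ r)
            ((2 : ℝ) ^ i * x - z - (u + 1 / 2) / 2 ^ r)
      have t3 : (7 : ℝ) / 4 / 2 ^ r = 3 / 4 / 2 ^ r + 3 / 4 / 2 ^ r + 1 / 4 / 2 ^ r := by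
        field_simp
        norm_num
      rw [t3]
      linarith
  omega

end Pool.Agent.Helper88.MR
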