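import Mathlib
import Pool.Agent.Helper17.KW.St.G4
import Pool.Agent.Helper88.MR.St.R7

/-!
# MR-R8: two typical points do not differ by `d / 3 ^ n'`, `3 ∤ d`, `n' ≤ q ^ γ`, `γ < 3 / 2`

Proof.  As `window_gen` in `Pool/Agent/Helper17/KW/St/F4.lean`: `window_of_sums3` with `N = 3 ^ q`,
`korobov_gen 3 2 (Or.inr ⟨rfl, rfl⟩)`, and `m = 3 ^ v m'` with `3 ∤ m'`.
-/

set_option autoImplicit false

open MeasureTheory Finset

namespace Pool.Agent.Helper88.MR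

open Pool.Agent.Helper61.FR

theorem window_gen3 (γ : ℝ) (hγ : γ < 3 / 2) (r : ℕ) (U : Finset ℕ)
    (hU : 48 * U.card ^ 2 < 2 ^ r) :
    ∃ q₀ n₁ : ℕ, 1 ≤ n₁ ∧ ∀ q, q₀ ≤ q → ∀ (n' : ℕ) (d : ℤ) (τ x : ℝ), n₁ ≤ n' →
      (n' : ℝ) ≤ (q : ℝ) ^ γ → ¬ (3 : ℤ) ∣ d → |τ| * 2 ^ (3 ^ q) * 3 ^ n' ≤ 1 →
        7 * 3 ^ q ≤ 8 * cnt (3 ^ q) 1 (nbhd r U) x →
        7 * 3 ^ q ≤ 8 * cnt (3 ^ q) 1 (nbhd r U) (x + d / 3 ^ n' + τ) → False := by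
  obtain ⟨S, η, n₂, hη, hS, hw⟩ := window_of_sums3 r U hU
  obtain ⟨q₀, hq₀⟩ := Pool.Agent.Helper17.KW.korobov_gen 3 2 (Or.inr ⟨rfl, rfl⟩) γ hγ η hη
  refine ⟨q₀, n₂ + 4 + S.sup id, by omega, fun q hq n' d τ x hn hnq hd hτ h1 h2 => ?_⟩
  have hp : Nat.Prime 3 := Nat.prime_three
  refine hw (3 ^ q) n' d τ x (Nat.one_le_pow _ _ (by norm_num)) (by omega) hτ
    (fun m hm => ?_) h1 h2
  have hm1 : 1 ≤ m := hS m hm
  obtain ⟨v, m', hm', hmv⟩ := Nat.exists_eq_pow_mul_and_not_dvd (n := m) (by omega) 3 (by norm_num)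
  have hm'1 : 1 ≤ m' := by
    rcases Nat.eq_zero_or_pos m' with h | h
    · exact absurd (h ▸ dvd_zero 3) hm'
    · exact h
  have hvm : v ≤ m := by
    have h3 : v < 3 ^ v := Nat.lt_pow_self (by norm_num)
    have h4 : 3 ^ v ≤ m := by
      rw [hmv]; exact Nat.le_mul_of_pos_right _ hm'1
    omega
  have hms : m ≤ S.sup id := Finset.le_sup (f := id) hm
  have hv : v + 4 ≤ n' := by omega
  have hnd : ¬ ((3 : ℕ) : ℤ) ∣ ((m' : ℤ) * d) := by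
    intro h4
    have h3 : Prime ((3 : ℕ) : ℤ) := Nat.prime_iff_prime_int.mp hp
    rcases h3.dvd_or_dvd h4 with h5 | h5
    · exact hm' (by exact_mod_cast h5)
    · exact hd (by exact_mod_cast h5)
  have hnle : ((n' - v : ℕ) : ℝ) ≤ (q : ℝ) ^ γ := by
    refine le_trans ?_ hnq
    exact_mod_cast Nat.sub_le n' v
  have key := hq₀ q hq (n' - v) (by omega) hnle ((m' : ℤ) * d) hnd
  have hterm : ∀ k : ℕ, ((m : ℕ) : ℝ) * ((d : ℝ) * 2 ^ k / 3 ^ n') =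
      (((m' : ℤ) * d : ℤ) : ℝ) * ((2 : ℕ) : ℝ) ^ k / ((3 : ℕ) : ℝ) ^ (n' - v) := by
    intro k
    have h3 : (3 : ℝ) ^ n' = 3 ^ (n' - v) * 3 ^ v := by
      rw [← pow_add]; congr 1; omega
    have h4 : (3 : ℝ) ^ v ≠ 0 := by positivity
    have h5 : (3 : ℝ) ^ (n' - v) ≠ 0 := by positivity
    have h6 : (m : ℝ) = 3 ^ v * m' := by
      rw [hmv]; push_cast; ring
    rw [h3, h6]
    push_cast
    field_simp
  have hsum : ∑ k ∈ range (3 ^ q), Pool.Agent.Helper61.FR.e (m * (d * 2 ^ k / 3 ^ n')) =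
      ∑ k ∈ range (3 ^ q), Pool.Agent.Helper17.KW.e
        ((((m' : ℤ) * d : ℤ) : ℝ) * ((2 : ℕ) : ℝ) ^ k / ((3 : ℕ) : ℝ) ^ (n' - v)) := by
    refine Finset.sum_congr rfl fun k _ => ?_
    rw [hterm k]
    rfl
  rw [hsum]
  exact_mod_cast key

end Pool.Agent.Helper88.MR
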